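import Pool.Agent.K6.H37.C120.M

/-!
# The 120-cell is Möbius unique

All definitions except `Is533` and `IsTwoFace` are those of the file `Pool.Agent.R179.MobDefs`.
-/

open R179.Mob Pool.Agent.K6.H37.C120

namespace Pool.Agent.Results.MP_dcc731_co.Moebius120Cell

/-- The 120-cell `{5,3,3}` is Möbius unique: if `v` and `w` are the vertices of two edge-scribed
convex 4-polytopes of combinatorial type `{5,3,3}` with isomorphic face lattices, then some Möbius
transformation of the extended 3-space maps the ball-arrangement projection of the first onto that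
of the second (respecting the given isomorphism `e`). -/
theorem result {ι κ : Type} [Fintype ι] [DecidableEq ι] [Fintype κ] [DecidableEq κ]
    (v : ι → E4) (w : κ → E4) (hv : IsPolytope v) (hw : IsPolytope w)
    (hvs : EdgeScribed v) (hws : EdgeScribed w) (ht : Is533 v) (e : ι ≃ κ)
    (he : ∀ F : Finset ι, IsFace v F ↔ IsFace w (F.map e.toEmbedding)) :
    ∃ μ, IsMoebius μ ∧ (∀ i, μ '' ball (v i) = ball (w (e i))) ∧
      (fun b => μ '' b) '' Set.range (fun i => ball (v i)) = Set.range (fun k => ball (w k)) :=
  moebius_unique533' hv hw hvs hws ht e he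

end Pool.Agent.Results.MP_dcc731_co.Moebius120Cell
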